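import Pool.Agent.H65.PK.Targets

/-!
Board pker_modules (MP_58ae59_nt), row GFN: existence of the slowly growing function.
-/

set_option autoImplicit false

open Polynomial Module Filter Topology

namespace Pool.Agent.H63.PKER

open Pool.Agent.H65.PK

theorem gfn_log_succ (h : ℕ) : Real.log ((h + 1 : ℕ) : ℝ) ≤ Real.log (h : ℝ) + 1 := by
  rcases Nat.eq_zero_or_pos h with h0 | h0
  · subst h0
    simp
  · have hp : (0 : ℝ) < h := by exact_mod_cast h0
    have h1 : Real.log (2 : ℝ) ≤ 1 := by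
      have := Real.log_two_lt_d9
      linarith
    have h2 : Real.log ((h + 1 : ℕ) : ℝ) ≤ Real.log (2 * (h : ℝ)) := by
      apply Real.log_le_log
      · positivity
      · have : (1 : ℝ) ≤ h := by exact_mod_cast h0
        push_cast
        linarith
    rw [Real.log_mul (by norm_num) hp.ne'] at h2
    linarith

theorem pf_GFN : T_GFN := by
  intro K hK
  have hKp : (0 : ℝ) < K := by exact_mod_cast hK
  have hK0 : K ≠ 0 := by omega
  have hp0 : (0 : ℝ) ≤ 1 / (K : ℝ) := by positivity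
  have hp1 : 1 / (K : ℝ) ≤ 1 := by
    rw [div_le_one hKp]
    exact_mod_cast hK
  refine ⟨fun h => max 1 ⌊(Real.log (h : ℝ)) ^ (1 / (K : ℝ))⌋₊, ?_, ?_, ?_, ?_, ?_⟩
  · intro h
    exact le_max_left _ _
  · intro a b hab
    refine max_le_max le_rfl (Nat.floor_mono ?_)
    refine Real.rpow_le_rpow (Real.log_natCast_nonneg a) ?_ hp0
    rcases Nat.eq_zero_or_pos a with h0 | h0
    · subst h0
      simpa using Real.log_natCast_nonneg b
    · apply Real.log_le_log
      · exact_mod_cast h0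
      · exact_mod_cast hab
  · intro h
    have h1 : (Real.log ((h + 1 : ℕ) : ℝ)) ^ (1 / (K : ℝ)) ≤
        (Real.log (h : ℝ)) ^ (1 / (K : ℝ)) + 1 := by
      calc (Real.log ((h + 1 : ℕ) : ℝ)) ^ (1 / (K : ℝ))
          ≤ (Real.log (h : ℝ) + 1) ^ (1 / (K : ℝ)) :=
            Real.rpow_le_rpow (Real.log_natCast_nonneg _) (gfn_log_succ h) hp0
        _ ≤ (Real.log (h : ℝ)) ^ (1 / (K : ℝ)) + 1 ^ (1 / (K : ℝ)) :=
            Real.rpow_add_le_add_rpow (Real.log_natCast_nonneg h) zero_le_one hp0 hp1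
        _ = _ := by rw [Real.one_rpow]
    have h2 : ⌊(Real.log ((h + 1 : ℕ) : ℝ)) ^ (1 / (K : ℝ))⌋₊ ≤
        ⌊(Real.log (h : ℝ)) ^ (1 / (K : ℝ))⌋₊ + 1 := by
      rw [← Nat.floor_add_one (Real.rpow_nonneg (Real.log_natCast_nonneg h) _)]
      exact Nat.floor_mono h1
    omega
  · intro B
    refine ⟨⌈Real.exp ((B : ℝ) ^ K)⌉₊, ?_⟩
    intro h hh
    refine le_max_of_le_right ?_
    apply Nat.le_floor
    have h1 : Real.exp ((B : ℝ) ^ K) ≤ h := (Nat.le_ceil _).trans (by exact_mod_cast hh)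
    have h2 : (B : ℝ) ^ K ≤ Real.log h := by
      rw [← Real.log_exp ((B : ℝ) ^ K)]
      exact Real.log_le_log (Real.exp_pos _) h1
    calc (B : ℝ) = ((B : ℝ) ^ K) ^ (1 / (K : ℝ)) := by
          rw [one_div, Real.pow_rpow_inv_natCast (by positivity) hK0]
      _ ≤ _ := Real.rpow_le_rpow (by positivity) h2 hp0
  · intro h hh
    have hl : (1 : ℝ) ≤ Real.log h := by
      rw [Real.le_log_iff_exp_le (by positivity)]
      have h3 : (3 : ℝ) ≤ h := by exact_mod_cast hh
      have := Real.exp_one_lt_d9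
      linarith
    have h0 : (0 : ℝ) ≤ Real.log h := by linarith
    have h1 : ((max 1 ⌊(Real.log (h : ℝ)) ^ (1 / (K : ℝ))⌋₊ : ℕ) : ℝ) ≤
        (Real.log (h : ℝ)) ^ (1 / (K : ℝ)) := by
      push_cast
      refine max_le ?_ (Nat.floor_le (Real.rpow_nonneg h0 _))
      exact Real.one_le_rpow hl hp0
    calc ((max 1 ⌊(Real.log (h : ℝ)) ^ (1 / (K : ℝ))⌋₊ : ℕ) : ℝ) ^ K
        ≤ ((Real.log (h : ℝ)) ^ (1 / (K : ℝ))) ^ K := by
          gcongr
      _ = Real.log h := by
          rw [one_div, Real.rpow_inv_natCast_pow h0 hK0]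

end Pool.Agent.H63.PKER
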