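import Pool.Agent.H65.PK.Targets

/-!
Board pker_modules (MP_58ae59_nt), row TRM: from a minimal pair to pencils of matrices.
-/

set_option autoImplicit false

open Polynomial Module Filter Topology

namespace Pool.Agent.H63.PKER

open Pool.Agent.H65.PK

/-- the linear map given by a basis of a subspace -/
noncomputable def tmap {R : Type} [AddCommGroup R] [Module ℚ R] {V : Submodule ℚ R} {d : ℕ}
    (b : Basis (Fin d) ℚ V) : (Fin d → ℚ) →ₗ[ℚ] R :=
  V.subtype ∘ₗ (b.equivFun.symm : (Fin d → ℚ) →ₗ[ℚ] V)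

theorem tmap_apply {R : Type} [AddCommGroup R] [Module ℚ R] {V : Submodule ℚ R} {d : ℕ}
    (b : Basis (Fin d) ℚ V) (y : Fin d → ℚ) : tmap b y = ∑ i, y i • (b i : R) := by
  simp only [tmap, LinearMap.comp_apply, LinearEquiv.coe_coe, Basis.equivFun_symm_apply,
    Submodule.subtype_apply, Submodule.coe_sum, Submodule.coe_smul]

theorem tmap_inj {R : Type} [AddCommGroup R] [Module ℚ R] {V : Submodule ℚ R} {d : ℕ}
    (b : Basis (Fin d) ℚ V) : Function.Injective (tmap b) := by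
  intro y z h
  apply b.equivFun.symm.injective
  apply Subtype.val_injective
  exact h

theorem trm_half {J R : Type} [AddCommGroup R] [Module ℚ R] [FiniteDimensional ℚ R]
    (x : J → Module.End ℚ R) (V U : Submodule ℚ R) (d : ℕ)
    (hvu : ∀ e, ∀ v ∈ V, x e v ∈ U)
    (hle : ∀ V' U' : Submodule ℚ R, (∀ e, ∀ v ∈ V', x e v ∈ U') → finrank ℚ V' ≤ finrank ℚ U')
    (hmin : ∀ V' U' : Submodule ℚ R, (∀ e, ∀ v ∈ V', x e v ∈ U') → V' ≠ ⊥ →
      finrank ℚ V' = finrank ℚ U' → d ≤ finrank ℚ V')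
    (bV : Basis (Fin d) ℚ V) (bU : Basis (Fin d) ℚ U) :
    ∃ A : J → Matrix (Fin d) (Fin d) ℚ,
      (∀ e i, x e (bV i : R) = ∑ j, A e i j • (bU j : R)) ∧ Mnl A := by
  obtain ⟨A, hA⟩ : ∃ A : J → Matrix (Fin d) (Fin d) ℚ,
      ∀ e i, x e (bV i : R) = ∑ j, A e i j • (bU j : R) := by
    refine ⟨fun e => Matrix.of fun i j => bU.repr ⟨x e (bV i : R), hvu e _ (bV i).2⟩ j, ?_⟩
    intro e i
    have h := congrArg (Subtype.val : U → R)
      (bU.sum_repr ⟨x e (bV i : R), hvu e _ (bV i).2⟩)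
    simp only [Submodule.coe_sum, Submodule.coe_smul] at h
    simp only [Matrix.of_apply]
    exact h.symm
  refine ⟨A, hA, ?_⟩
  have hx : ∀ e (y : Fin d → ℚ), x e (tmap bV y) = tmap bU (Matrix.vecMul y (A e)) := by
    intro e y
    rw [tmap_apply, tmap_apply, map_sum]
    simp only [map_smul, hA, Finset.smul_sum, Matrix.vecMul, dotProduct, Finset.sum_smul,
      smul_smul]
    exact Finset.sum_comm
  intro V1 U1 hS hne
  have hS' : ∀ e, ∀ v ∈ V1.map (tmap bV), x e v ∈ U1.map (tmap bU) := by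
    rintro e _ ⟨y, hy, rfl⟩
    rw [hx]
    exact ⟨_, hS e y hy, rfl⟩
  have hfV : finrank ℚ (V1.map (tmap bV)) = finrank ℚ V1 :=
    (LinearEquiv.finrank_eq (Submodule.equivMapOfInjective _ (tmap_inj bV) V1)).symm
  have hfU : finrank ℚ (U1.map (tmap bU)) = finrank ℚ U1 :=
    (LinearEquiv.finrank_eq (Submodule.equivMapOfInjective _ (tmap_inj bU) U1)).symm
  have h1 : finrank ℚ V1 ≤ finrank ℚ U1 := by
    have := hle _ _ hS'
    rwa [hfV, hfU] at this
  refine ⟨h1, ?_⟩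
  intro htop
  rcases lt_or_eq_of_le h1 with h2 | h2
  · exact h2
  · exfalso
    have hne' : V1.map (tmap bV) ≠ ⊥ := by
      intro h3
      apply hne
      rw [Submodule.eq_bot_iff] at h3 ⊢
      intro y hy
      apply tmap_inj bV
      rw [map_zero]
      exact h3 _ (Submodule.mem_map_of_mem hy)
    have h3 := hmin _ _ hS' hne' (by rw [hfV, hfU, h2])
    rw [hfV] at h3
    have h4 := Submodule.finrank_lt htop
    rw [Module.finrank_fin_fun] at h4
    omega

theorem pf_TRM : T_TRM := by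
  intro J R _ _ _ _ x V U hM d bV bU
  have hV : finrank ℚ V = d := by
    rw [Module.finrank_eq_card_basis bV, Fintype.card_fin]
  obtain ⟨A, hA, hmA⟩ := trm_half x V U d hM.vu hM.le
    (fun V' U' h h0 h1 => hV ▸ hM.min V' U' h h0 h1) bV bU
  obtain ⟨B, hB, hmB⟩ := trm_half x U V d hM.uv hM.le
    (fun V' U' h h0 h1 => hV ▸ hM.min V' U' h h0 h1) bU bV
  exact ⟨A, B, hA, hB, hmA, hmB⟩

end Pool.Agent.H63.PKER
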