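import Pool.Agent.H65.PK.Targets
import Pool.Agent.H18.TD.AOC

/-!
Board pker_modules (MP_58ae59_nt), row WCL: closure properties.
-/

set_option autoImplicit false

open Polynomial Module Filter Topology

namespace Pool.Agent.H63.PKER

open Pool.Agent.H18.TD Pool.Agent.H65.PK

theorem wcl_ao_exp {t : ℂ} {x : ℝ} (q : ℚ)
    (h : AO t ((Real.exp x : ℝ) : ℂ)) : AO t ((Real.exp ((q : ℝ) * x) : ℝ) : ℂ) := by
  obtain ⟨-, -, -, -, -, hroot, hexp⟩ := pf_AOC t
  refine hroot _ q.den q.pos ?_
  have h1 := hexp 1 (fun _ => (x : ℂ)) (fun _ => q.num) (fun _ => by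
    rw [← Complex.ofReal_exp]
    exact h)
  have h2 : ((Real.exp ((q : ℝ) * x) : ℝ) : ℂ) ^ q.den =
      Complex.exp (∑ k : Fin 1, (x : ℂ) * ((q.num : ℤ) : ℂ)) := by
    rw [Finset.univ_unique, Finset.sum_singleton, Complex.ofReal_exp, ← Complex.exp_nat_mul]
    congr 1
    have h3 : (q : ℝ) * (q.den : ℝ) = (q.num : ℝ) := by
      exact_mod_cast Rat.mul_den_eq_num q
    have h4 : ((q.den : ℕ) : ℝ) * ((q : ℝ) * x) = x * (q.num : ℝ) := by
      rw [← h3]
      ring
    exact_mod_cast congrArg (fun z : ℝ => (z : ℂ)) h4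
  rw [h2]
  exact h1

theorem wcl_alg_exp {x : ℝ} (q : ℚ)
    (h : IsAlgebraic ℚ (Real.exp x)) : IsAlgebraic ℚ (Real.exp ((q : ℝ) * x)) := by
  refine IsAlgebraic.of_pow q.pos ?_
  have h2 : Real.exp ((q : ℝ) * x) ^ q.den = Real.exp x ^ q.num := by
    rw [← Real.exp_nat_mul, ← Real.rpow_intCast, ← Real.exp_mul]
    congr 1
    have h3 : (q : ℝ) * (q.den : ℝ) = (q.num : ℝ) := by
      exact_mod_cast Rat.mul_den_eq_num q
    rw [← h3]
    ring
  rw [h2]
  cases q.num with
  | ofNat n =>
    rw [Int.ofNat_eq_natCast, zpow_natCast]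
    exact h.pow n
  | negSucc n =>
    rw [zpow_negSucc]
    exact (h.pow _).inv

theorem pf_WCL : T_WCL := by
  intro t S
  obtain ⟨-, hq, hadd, hmul, hinv, hroot, hexp⟩ := pf_AOC t
  refine ⟨?_, ?_, ?_⟩
  · intro h x hx
    induction hx using Submodule.span_induction with
    | mem x hx => exact h x hx
    | zero => simpa using hq 0
    | add x y _ _ hx hy =>
      rw [Complex.ofReal_add]
      exact hadd _ _ hx hy
    | smul q x _ hx =>
      rw [Rat.smul_def, Complex.ofReal_mul]
      refine hmul _ _ ?_ hx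
      simpa using hq q
  · intro h x hx
    induction hx using Submodule.span_induction with
    | mem x hx => exact h x hx
    | zero => simpa using hq 1
    | add x y _ _ hx hy =>
      rw [Real.exp_add, Complex.ofReal_mul]
      exact hmul _ _ hx hy
    | smul q x _ hx =>
      rw [Rat.smul_def]
      exact wcl_ao_exp q hx
  · intro h x hx
    induction hx using Submodule.span_induction with
    | mem x hx => exact h x hx
    | zero =>
      rw [Real.exp_zero]
      exact isAlgebraic_one
    | add x y _ _ hx hy =>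
      rw [Real.exp_add]
      exact hx.mul hy
    | smul q x _ hx =>
      rw [Rat.smul_def]
      exact wcl_alg_exp q hx

end Pool.Agent.H63.PKER
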